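import Pool.Agent.Helper2.V8B.Main
import Pool.Agent.Helper53.EV4.Sec
import Pool.Agent.Helper57.EV4.Fin

/-!
# The lens with twist regions and products of side numbers

If `√(l r) / 4 + √(l' r') / 4 ≤ B` for the two Seifert circles at every twist region, `l`, `r` = numbers of twist regions on the two sides, then all zeros `s⁻¹ - s`,
`|s| ≠ 1`, of the Conway polynomial satisfy `2 (1 + |s|²) ≤ 4 (B + 1) |Im s|`.
-/

set_option autoImplicit false

namespace Pool.Agent.Helper27.EV4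

open Complex Finset Polynomial Pool.Agent.Helper85.Exp Pool.Agent.Helper60.EV2 Pool.Agent.Helper2.PD Pool.Agent.Helper16.PD Pool.Agent.Helper43.Pln
  Pool.Agent.Helper30.VQ Pool.Agent.Helper2.V8B

/-- `Re (1 + r) / (1 - r) ≥ (1 - n) / (1 + n)` for `|r| ≤ n < 1`. -/
theorem re_q_ge {r : ℂ} {n : ℝ} (hr : ‖r‖ ≤ n) (hn : n < 1) : (1 - n) / (1 + n) ≤ ((1 + r) / (1 - r)).re := by
  have hn0 : 0 ≤ n := (norm_nonneg r).trans hr
  have hr1 : ‖r‖ < 1 := lt_of_le_of_lt hr hn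
  have hns : normSq r = ‖r‖ ^ 2 := Complex.normSq_eq_norm_sq r
  have hns' : normSq r = r.re ^ 2 + r.im ^ 2 := by rw [normSq_apply]; ring
  have hpos : 0 < normSq (1 - r) := by
    refine normSq_pos.2 (fun h => ?_)
    have : r = 1 := by linear_combination -h
    rw [this, norm_one] at hr1
    exact lt_irrefl _ hr1
  have e1 : ((1 + r) / (1 - r)).re = (1 - ‖r‖ ^ 2) / normSq (1 - r) := by
    rw [Complex.div_re, ← add_div, ← hns, hns']
    congr 1
    simp only [add_re, one_re, sub_re, add_im, one_im, sub_im]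
    ring
  have e2 : normSq (1 - r) ≤ (1 + ‖r‖) ^ 2 := by
    rw [Complex.normSq_eq_norm_sq]
    refine pow_le_pow_left₀ (norm_nonneg _) ?_ 2
    calc ‖1 - r‖ ≤ ‖(1 : ℂ)‖ + ‖r‖ := norm_sub_le _ _
      _ = 1 + ‖r‖ := by rw [norm_one]
  rw [e1, div_le_div_iff₀ (by linarith) hpos]
  have h0 := norm_nonneg r
  have h1 : (1 - n) * normSq (1 - r) ≤ (1 - n) * (1 + ‖r‖) ^ 2 := mul_le_mul_of_nonneg_left e2 (by linarith)
  have h2 : (1 - n) * (1 + ‖r‖) ^ 2 ≤ (1 - ‖r‖ ^ 2) * (1 + n) := by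
    nlinarith [mul_nonneg (by linarith : 0 ≤ 1 + ‖r‖) (by linarith : 0 ≤ n - ‖r‖)]
  linarith

variable {P : Type} {G : Sh P} [Fintype P]

/-- **No colouring outside the lens.** -/
theorem zero_B (hG : Plane G) {s : ℂ} (hs0 : s ≠ 0) (hs : ‖s‖ < 1) {I : P → Prop} (hI : Bigons G I) {B : ℝ}
    (hmar : ∀ m : ℕ, 0 < m → B * |(s + s⁻¹).im| < normSq (s + s⁻¹) / 2 * ((1 + (-s ^ 2) ^ m) / (1 - (-s ^ 2) ^ m)).re)
    {c : Face G → ℂ} (hc : ∀ x : Cr G, c (Rf G x.1) + s ^ 2 * c (Lf G (G.nxt.symm x.1)) = s * (c (Lf G x.1) + c (Rf G (G.op x.1))))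
    (hw : ∀ p, ¬ I p → weight 0 G I p + weight 0 G I (G.op p) ≤ B) (b : P) (hb1 : c (Lf G b) = 0) (hb2 : c (Rf G b) = 0) :
    ∀ f, c f = 0 := by
  classical
  have ho := hG.cross
  have hp := pos_ofG ho hc
  have hB := blk_ofG ho c hI
  have hr : ∀ x : {p // ¬ I p}, (1 : ℂ) - (-s ^ 2) ^ Ws.Blk.len (ofG ho c) I x ≠ 0 := fun x h =>
    Ws.Blk.rho_pow_ne hs (Ws.Blk.len_pos x) (by linear_combination -h)
  have hz : ∀ x : {p // ¬ I p}, hB.ct.lf x = true → hB.ct.R x = hB.ct.R (hB.ct.sg.symm x) := by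
    refine Ws.zero_of (W := hB.ct) hs0 (fun x => (1 + (-s ^ 2) ^ Ws.Blk.len (ofG ho c) I x) / (1 - (-s ^ 2) ^ Ws.Blk.len (ofG ho c) I x)) ?_
      (le_refl (0 : ℝ))
      (wt 0 (rp (seifert G) (fun p => ¬ I p)) (lst G I)) (fun e => wt_apply (α := 0) (rp (seifert G) (fun p => ¬ I p)) (lst G I) e) ?_
      (σ := 0) (by simp) ?_
    · intro x hx
      have h2 := hB.block hp x hx
      have h3 := hr x
      refine mul_right_cancel₀ h3 ?_
      have h4 : ((1 + (-s ^ 2) ^ Ws.Blk.len (ofG ho c) I x) / (1 - (-s ^ 2) ^ Ws.Blk.len (ofG ho c) I x)) *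
          (1 - (-s ^ 2) ^ Ws.Blk.len (ofG ho c) I x) = 1 + (-s ^ 2) ^ Ws.Blk.len (ofG ho c) I x := div_mul_cancel₀ _ h3
      linear_combination 2 * h2 - (1 + s ^ 2) * (hB.ct.R x - hB.ct.R (hB.ct.sg.symm x)) * h4
    · intro e
      refine cycle_wt (le_refl (0 : ℝ)) zero_le_one (rp (seifert G) (fun p => ¬ I p)) hB.ct.L hB.ct.R (lst G I) (fun e he => ?_) (fun e he => ?_) e
      · have he' : G.lf (rp (seifert G) (fun p => ¬ I p) e : {p // ¬ I p}) = false := by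
          unfold lst at he
          simpa using he
        exact Ws.east' (W := hB.ct) (p := e) he'
      · have he' : G.lf (rp (seifert G) (fun p => ¬ I p) e : {p // ¬ I p}) = true := by
          unfold lst at he
          simpa using he
        exact Ws.west' (W := hB.ct) (p := e) he'
    · intro x hx _
      have hw1 := hw x x.2
      have e1 := wt_eq (G := G) 0 x
      have e2 := wt_eq (G := G) 0 (hB.ct.op x)
      have e3 : ((hB.ct.op x : {p // ¬ I p}) : P) = G.op x := rfl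
      rw [e3] at e2
      rw [e1, e2]
      simp only [zero_mul, add_zero]
      exact lt_of_le_of_lt (mul_le_mul_of_nonneg_right hw1 (abs_nonneg _)) (hmar (Ws.Blk.len (ofG ho c) I x) (Ws.Blk.len_pos x))
  have hall : ∀ x : Cr G, c (Rf G x.1) = c (Lf G (G.nxt.symm x.1)) := by
    intro x
    have h2 := hB.all_of hs hp hz (p := x.1) x.2
    have h3 := (ofG ho c).south x.1 x.2
    rw [h3] at h2
    have h4 : (ofG ho c).L ((ofG ho c).sg.symm ((ofG ho c).op x.1)) = c (Lf G (G.nxt.symm x.1)) := by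
      show c (Lf G (G.nxt.symm (G.op (G.op x.1)))) = _
      rw [G.op_op]
    rw [h4] at h2
    exact h2
  exact Pool.Agent.Helper59.V8.zero_of_const ho hG.conn c s hs0 hc hall b hb1 hb2

/-- The lens, `|s| < 1`. -/
theorem blens_lt (hG : Plane G) (nab : Dg G → ℤ[X]) (hn : Cs nab) {I : P → Prop} (hI : Bigons G I) {B : ℝ}
    (hw : ∀ p, ¬ I p → weight 0 G I p + weight 0 G I (G.op p) ≤ B) {s : ℂ} (hs0 : s ≠ 0) (hs : ‖s‖ < 1)
    (hz : aeval (s⁻¹ - s) (nab (allPos G)) = 0) (hB : 0 ≤ B) : 2 * (1 + normSq s) ≤ 4 * (B + 1) * |s.im| := by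
  obtain ⟨b⟩ := nonempty_of hG
  obtain ⟨c, ⟨f, hf⟩, hc1, hc2, hc⟩ := Pool.Agent.Helper59.V8.exists_col hG nab hn hs0 hz b
  have hn' : normSq s = s.re ^ 2 + s.im ^ 2 := by rw [normSq_apply]; ring
  have hn0 : 0 < normSq s := normSq_pos.2 hs0
  have hn1 : normSq s < 1 := by
    rw [Complex.normSq_eq_norm_sq]
    nlinarith [norm_nonneg s]
  obtain ⟨n, hndef⟩ : ∃ n, n = normSq s := ⟨_, rfl⟩
  have hrho : ‖-s ^ 2‖ = n := by
    rw [norm_neg, norm_pow, ← Complex.normSq_eq_norm_sq, hndef]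
  rw [← hndef] at hn' hn0 hn1 ⊢
  have hvre : (s + s⁻¹).re = s.re * (1 + n) / n := by
    rw [add_re, inv_re, ← hndef]
    field_simp
    ring
  have hvim : (s + s⁻¹).im = -(s.im * (1 - n) / n) := by
    rw [add_im, inv_im, ← hndef]
    field_simp
    ring
  have hv : normSq (s + s⁻¹) = ((1 + n) ^ 2 - 4 * s.im ^ 2) / n := by
    rw [normSq_apply, hvre, hvim]
    have : s.re ^ 2 = n - s.im ^ 2 := by rw [hn']; ring
    field_simp
    linear_combination (1 + n) ^ 2 * this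
  -- there is a twist region where the strict inequality fails
  have hex : ∃ m : ℕ, 0 < m ∧ normSq (s + s⁻¹) / 2 * ((1 + (-s ^ 2) ^ m) / (1 - (-s ^ 2) ^ m)).re ≤ B * |(s + s⁻¹).im| := by
    by_contra hcon
    push Not at hcon
    exact hf (zero_B hG hs0 hs hI hcon hc hw _ hc1 hc2 f)
  obtain ⟨m, hm0, hm⟩ := hex
  have hrm : ‖(-s ^ 2) ^ m‖ ≤ n := by
    rw [norm_pow, hrho]
    exact pow_le_of_le_one hn0.le hn1.le (by omega)
  have hq := re_q_ge hrm hn1
  have h1 : normSq (s + s⁻¹) / 2 * ((1 - n) / (1 + n)) ≤ B * |(s + s⁻¹).im| :=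
    le_trans (mul_le_mul_of_nonneg_left hq (div_nonneg (normSq_nonneg _) (by norm_num))) hm
  rw [hv, hvim, abs_neg, abs_div, abs_mul, abs_of_pos (by linarith : 0 < 1 - n), abs_of_pos hn0] at h1
  have h2 : (1 + n) ^ 2 - 4 * s.im ^ 2 ≤ 2 * B * |s.im| * (1 + n) := by
    have e1 : ((1 + n) ^ 2 - 4 * s.im ^ 2) / n / 2 * ((1 - n) / (1 + n)) =
        ((1 + n) ^ 2 - 4 * s.im ^ 2) * (1 - n) / (2 * n * (1 + n)) := by field_simp
    rw [e1, div_le_iff₀ (mul_pos (by linarith) (by linarith) : 0 < 2 * n * (1 + n))] at h1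
    have e2 : B * (|s.im| * (1 - n) / n) * (2 * n * (1 + n)) = 2 * B * |s.im| * (1 + n) * (1 - n) := by field_simp
    rw [e2] at h1
    exact le_of_mul_le_mul_right h1 (by linarith)
  have h3 : s.im ^ 2 = |s.im| ^ 2 := (sq_abs _).symm
  rw [h3] at h2
  obtain ⟨y, hy⟩ : ∃ y, y = |s.im| := ⟨_, rfl⟩
  have hy0 : 0 ≤ y := by rw [hy]; exact abs_nonneg _
  rw [← hy] at h2 ⊢
  by_contra hcon
  push Not at hcon
  -- `2 (B + 1) y < 1 + n`
  have h4 : 2 * (B + 1) * y < 1 + n := by linarith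
  have h5 : 2 * y < 1 + n := by nlinarith [mul_nonneg hB hy0]
  have h6 : 2 * y * (2 * y) ≤ 2 * y * (1 + n) := mul_le_mul_of_nonneg_left h5.le (by linarith)
  have h7 : (2 * (B + 1) * y) * (1 + n) < (1 + n) * (1 + n) := mul_lt_mul_of_pos_right h4 (by linarith)
  nlinarith

/-- **The lens.** -/
theorem blens (hG : Plane G) (nab : Dg G → ℤ[X]) (hn : Cs nab) {I : P → Prop} (hI : Bigons G I) {B : ℝ} (hB : 0 ≤ B)
    (hw : ∀ p, ¬ I p → weight 0 G I p + weight 0 G I (G.op p) ≤ B) {s : ℂ} (hs0 : s ≠ 0) (hs : normSq s ≠ 1)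
    (hz : aeval (s⁻¹ - s) (nab (allPos G)) = 0) : 2 * (1 + normSq s) ≤ 4 * (B + 1) * |s.im| := by
  have hs' : ‖s‖ ≠ 1 := by
    intro h
    apply hs
    rw [Complex.normSq_eq_norm_sq, h, one_pow]
  rcases lt_or_gt_of_ne hs' with h | h
  · exact blens_lt hG nab hn hI hw hs0 h hz hB
  · have h1 : ‖-s⁻¹‖ < 1 := by
      rw [norm_neg, norm_inv]
      exact inv_lt_one_of_one_lt₀ h
    have h2 : (-s⁻¹)⁻¹ - -s⁻¹ = s⁻¹ - s := by
      rw [← neg_inv, inv_inv]
      ring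
    have h3 := blens_lt hG nab hn hI hw (neg_ne_zero.2 (inv_ne_zero hs0)) h1 (by rw [h2]; exact hz) hB
    have hn0 : 0 < normSq s := normSq_pos.2 hs0
    rw [normSq_neg, normSq_inv, neg_im, inv_im, neg_div, neg_neg, abs_div, abs_of_pos hn0] at h3
    have h4 := mul_le_mul_of_nonneg_right h3 hn0.le
    have e1 : 2 * (1 + (normSq s)⁻¹) * normSq s = 2 * (1 + normSq s) := by
      field_simp
      ring
    have e2 : 4 * (B + 1) * (|s.im| / normSq s) * normSq s = 4 * (B + 1) * |s.im| := by field_simp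
    rw [e1, e2] at h4
    exact h4

/-- **The zero-free region** for `l r ≤ N` (numbers of twist regions). -/
theorem zf_regions (hG : Plane G) (nab : Dg G → ℤ[X]) (hn : Cs nab) {I : P → Prop} (hI : Bigons G I) {N : ℕ}
    (hN : ∀ p, side G I false p * side G I true p ≤ N) : Pool.Agent.Helper57.EV4.Zf nab (4 * ((N : ℝ) + 2)) := by
  intro z hz
  refine Pool.Agent.Helper53.EV4.zf_of_lens (N := 4 * ((N : ℝ) + 2)) fun s hs0 hs1 hsz => ?_
  have hw : ∀ p, weight 0 G I p ≤ ((N : ℝ) + 1) / 8 * 4 := by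
    intro p
    have h1 : (side G I true p : ℝ) * side G I false p ≤ N := by
      have := hN p
      rw [mul_comm] at this
      exact_mod_cast this
    have h2 : √((side G I true p : ℝ) * side G I false p) ≤ (N : ℝ) + 1 := by
      rw [Real.sqrt_le_left (by positivity)]
      nlinarith [(Nat.cast_nonneg N : (0 : ℝ) ≤ N)]
    unfold weight
    nlinarith [(Nat.cast_nonneg N : (0 : ℝ) ≤ N)]
  have h := blens hG nab hn hI (B := (N : ℝ) + 1) (by positivity) (fun p _ => by linarith [hw p, hw (G.op p)]) hs0 hs1 (by rw [hsz]; exact hz)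
  linarith

end Pool.Agent.Helper27.EV4
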